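import Mathlib

set_option autoImplicit false

/-!
# Perfect squares among the decimal truncations of `π` are sparse

`a n = ⌊π * 10 ^ n⌋₊`. Up to trailing zeros, at most `2 * log₂ ((N + 2) / 11)` of the numbers
`a 0, ..., a N` are perfect squares.
-/

namespace Pool.Agent.Results.MP_050e89_nt.SparseSquares

open Real

/-- the truncation, as an auxiliary abbreviation which does not occur in the result -/
noncomputable abbrev a (n : ℕ) : ℕ := ⌊π * 10 ^ n⌋₊

lemma a_le (n : ℕ) : (a n : ℝ) ≤ π * 10 ^ n :=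
  Nat.floor_le (by positivity)

lemma lt_a (n : ℕ) : π * 10 ^ n < a n + 1 := Nat.lt_floor_add_one _

lemma three_le (n : ℕ) : 3 * 10 ^ n ≤ a n := by
  refine Nat.le_floor ?_
  push_cast
  exact mul_le_mul_of_nonneg_right pi_gt_three.le (by positivity)

lemma a_div (n : ℕ) : a (n + 2) / 100 = a n := by
  have h := Nat.floor_div_natCast (π * 10 ^ (n + 2)) 100
  rw [← h]
  congr 1
  push_cast
  rw [pow_add]
  ring

/-- the first twenty truncations -/
lemma a_small {n : ℕ} (hn : n < 20) : a n = 314159265358979323846 / 10 ^ (20 - n) := by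
  have h1 := pi_gt_d20
  have h2 := pi_lt_d20
  have h10 : (0 : ℝ) < 10 ^ n := by positivity
  rw [a, Nat.floor_eq_iff (by positivity)]
  interval_cases n <;> norm_num <;> constructor <;> linarith

lemma not_square_small {n : ℕ} (hn : n < 20) (m : ℕ) : a n ≠ m ^ 2 := by
  rw [a_small hn]
  intro h
  have key : ∀ c k : ℕ, k ^ 2 < c → c < (k + 1) ^ 2 → c ≠ m ^ 2 := by
    intro c k h1 h2 h3
    rw [h3] at h1 h2
    have h4 := lt_of_pow_lt_pow_left₀ 2 (Nat.zero_le m) h1
    have h5 := lt_of_pow_lt_pow_left₀ 2 (Nat.zero_le (k + 1)) h2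
    omega
  interval_cases n
  · exact key _ 1 (by norm_num) (by norm_num) h
  · exact key _ 5 (by norm_num) (by norm_num) h
  · exact key _ 17 (by norm_num) (by norm_num) h
  · exact key _ 56 (by norm_num) (by norm_num) h
  · exact key _ 177 (by norm_num) (by norm_num) h
  · exact key _ 560 (by norm_num) (by norm_num) h
  · exact key _ 1772 (by norm_num) (by norm_num) h
  · exact key _ 5604 (by norm_num) (by norm_num) h
  · exact key _ 17724 (by norm_num) (by norm_num) h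
  · exact key _ 56049 (by norm_num) (by norm_num) h
  · exact key _ 177245 (by norm_num) (by norm_num) h
  · exact key _ 560499 (by norm_num) (by norm_num) h
  · exact key _ 1772453 (by norm_num) (by norm_num) h
  · exact key _ 5604991 (by norm_num) (by norm_num) h
  · exact key _ 17724538 (by norm_num) (by norm_num) h
  · exact key _ 56049912 (by norm_num) (by norm_num) h
  · exact key _ 177245385 (by norm_num) (by norm_num) h
  · exact key _ 560499121 (by norm_num) (by norm_num) h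
  · exact key _ 1772453850 (by norm_num) (by norm_num) h
  · exact key _ 5604991216 (by norm_num) (by norm_num) h

/-- the gap principle -/
lemma gap {n₁ s m₁ m₂ : ℕ} (hs : 1 ≤ s) (h₁ : a n₁ = m₁ ^ 2) (h₂ : a (n₁ + 2 * s) = m₂ ^ 2)
    (hm : ¬ 10 ∣ m₂) : n₁ + 2 ≤ 2 * s := by
  have e1 : (m₁ : ℝ) ^ 2 ≤ π * 10 ^ n₁ := by
    have := a_le n₁; rw [h₁] at this; exact_mod_cast this
  have e2 : π * 10 ^ n₁ < (m₁ : ℝ) ^ 2 + 1 := by
    have := lt_a n₁; rw [h₁] at this; exact_mod_cast this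
  have e3 : (m₂ : ℝ) ^ 2 ≤ π * 10 ^ n₁ * (10 ^ s) ^ 2 := by
    have := a_le (n₁ + 2 * s); rw [h₂] at this
    push_cast at this
    calc (m₂ : ℝ) ^ 2 ≤ π * 10 ^ (n₁ + 2 * s) := this
      _ = _ := by rw [pow_add, mul_comm 2 s, pow_mul]; ring
  have e4 : π * 10 ^ n₁ * (10 ^ s) ^ 2 < (m₂ : ℝ) ^ 2 + 1 := by
    have := lt_a (n₁ + 2 * s); rw [h₂] at this
    push_cast at this
    calc π * 10 ^ n₁ * (10 ^ s) ^ 2 = π * 10 ^ (n₁ + 2 * s) := by
          rw [pow_add, mul_comm 2 s, pow_mul]; ring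
      _ < _ := this
  have hm1 : 1 ≤ m₁ := by
    rcases Nat.eq_zero_or_pos m₁ with h | h
    · have := three_le n₁
      rw [h₁, h] at this
      have : 0 < 3 * 10 ^ n₁ := by positivity
      omega
    · exact h
  have hbig : 2 * m₁ < 10 ^ s := by
    by_contra hcon
    push_neg at hcon
    set X : ℝ := π * 10 ^ n₁ with hX
    set t : ℝ := (10 : ℝ) ^ s with ht
    have ht0 : 0 < t := by positivity
    have hcon' : t ≤ 2 * (m₁ : ℝ) := by rw [ht]; exact_mod_cast hcon
    have hm1' : (1 : ℝ) ≤ m₁ := by exact_mod_cast hm1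
    -- m₂ < 10^s m₁ + 1
    have f1 : (m₂ : ℝ) < t * m₁ + 1 := by
      have : (m₂ : ℝ) ^ 2 < (t * m₁ + 1) ^ 2 := by
        calc (m₂ : ℝ) ^ 2 ≤ X * t ^ 2 := e3
          _ < ((m₁ : ℝ) ^ 2 + 1) * t ^ 2 := by
            exact mul_lt_mul_of_pos_right e2 (by positivity)
          _ ≤ (t * m₁ + 1) ^ 2 := by nlinarith
      exact lt_of_pow_lt_pow_left₀ 2 (by positivity) this
    -- 10^s m₁ < m₂ + 1
    have f2 : t * m₁ < (m₂ : ℝ) + 1 := by
      have : (t * m₁) ^ 2 < ((m₂ : ℝ) + 1) ^ 2 := by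
        calc (t * m₁) ^ 2 = (m₁ : ℝ) ^ 2 * t ^ 2 := by ring
          _ ≤ X * t ^ 2 := mul_le_mul_of_nonneg_right e1 (by positivity)
          _ < (m₂ : ℝ) ^ 2 + 1 := e4
          _ ≤ ((m₂ : ℝ) + 1) ^ 2 := by nlinarith [Nat.cast_nonneg (α := ℝ) m₂]
      exact lt_of_pow_lt_pow_left₀ 2 (by positivity) this
    have g1 : m₂ < 10 ^ s * m₁ + 1 := by
      rw [ht] at f1; exact_mod_cast f1
    have g2 : 10 ^ s * m₁ < m₂ + 1 := by
      rw [ht] at f2; exact_mod_cast f2
    have g3 : m₂ = 10 ^ s * m₁ := by omega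
    exact hm (g3 ▸ Dvd.dvd.mul_right (dvd_pow_self 10 (by omega)) m₁)
  have h3 := three_le n₁
  rw [h₁] at h3
  have h4 : 10 ^ (n₁ + 1) < 10 ^ (2 * s) := by
    calc 10 ^ (n₁ + 1) = 10 * 10 ^ n₁ := by ring
      _ < 4 * (3 * 10 ^ n₁) := by have : 0 < 10 ^ n₁ := by positivity
                                  omega
      _ ≤ 4 * m₁ ^ 2 := by omega
      _ = (2 * m₁) ^ 2 := by ring
      _ < (10 ^ s) ^ 2 := Nat.pow_lt_pow_left hbig (by norm_num)
      _ = 10 ^ (2 * s) := by rw [← pow_mul, mul_comm]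
  have := (Nat.pow_lt_pow_iff_right (by norm_num : 1 < 10)).1 h4
  omega

/-- counting -/
lemma count (S : Finset ℕ) : (∀ x ∈ S, 20 ≤ x) →
    (∀ x ∈ S, ∀ y ∈ S, x < y → 2 * x + 2 ≤ y) → ∀ N : ℕ, 9 ≤ N → (∀ x ∈ S, x ≤ N) →
    11 * 2 ^ S.card ≤ N + 2 := by
  induction S using Finset.induction_on_max with
  | empty => intro _ _ N hN _; simp only [Finset.card_empty, pow_zero]; omega
  | insert b S hb ih =>
    intro h20 hgap N hN hle
    have hbS : b ∉ S := fun h => lt_irrefl b (hb b h)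
    have hb20 := h20 b (Finset.mem_insert_self _ _)
    have hbN := hle b (Finset.mem_insert_self _ _)
    have := ih (fun x hx => h20 x (Finset.mem_insert_of_mem hx))
      (fun x hx y hy => hgap x (Finset.mem_insert_of_mem hx) y (Finset.mem_insert_of_mem hy))
      ((b - 2) / 2) (by omega) (fun x hx => by
        have := hgap x (Finset.mem_insert_of_mem hx) b (Finset.mem_insert_self _ _) (hb x hx)
        omega)
    rw [Finset.card_insert_of_notMem hbS, pow_succ]
    omega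

lemma count_log {S : Finset ℕ} {N : ℕ} (h20 : ∀ x ∈ S, 20 ≤ x)
    (hgap : ∀ x ∈ S, ∀ y ∈ S, x < y → 2 * x + 2 ≤ y) (hN : 20 ≤ N) (hle : ∀ x ∈ S, x ≤ N) :
    (S.card : ℝ) ≤ Real.logb 2 (((N : ℝ) + 2) / 11) := by
  have h := count S h20 hgap N (by omega) hle
  rw [Real.le_logb_iff_rpow_le (by norm_num) (by positivity), Real.rpow_natCast,
    le_div_iff₀ (by norm_num)]
  have : ((11 * 2 ^ S.card : ℕ) : ℝ) ≤ ((N + 2 : ℕ) : ℝ) := by exact_mod_cast h
  push_cast at this
  linarith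

/-- a square is a power of 100 times a square of a number which is not divisible by 10 -/
lemma reduce (n : ℕ) : ∀ m : ℕ, a n = m ^ 2 → ∃ n' j m' : ℕ, n = n' + 2 * j ∧
    a n' = m' ^ 2 ∧ ¬ 10 ∣ m' ∧ a n = 10 ^ (2 * j) * a n' := by
  induction n using Nat.strong_induction_on with
  | _ n ih =>
    intro m hm
    by_cases h10 : 10 ∣ m
    · obtain ⟨k, rfl⟩ := h10
      have hn : 20 ≤ n := by
        by_contra h
        exact not_square_small (not_le.1 h) _ hm
      obtain ⟨l, rfl⟩ : ∃ l, n = l + 2 := ⟨n - 2, by omega⟩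
      have h1 : a l = k ^ 2 := by
        rw [← a_div, hm]
        rw [show (10 * k) ^ 2 = 100 * k ^ 2 by ring]
        omega
      obtain ⟨n', j, m', e1, e2, e3, e4⟩ := ih l (by omega) k h1
      refine ⟨n', j + 1, m', by omega, e2, e3, ?_⟩
      rw [hm, show (10 * k) ^ 2 = 100 * k ^ 2 by ring, ← h1, e4]
      ring
    · exact ⟨n, 0, m, by omega, hm, h10, by simp⟩

/-- **Squares among the truncations of `π` are sparse.** For every `N ≥ 20` there is a set `P`
with at most `2 log₂ ((N + 2) / 11)` elements such that every `n ≤ N` for which `⌊π 10 ^ n⌋` is a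
perfect square has the form `n' + 2 j` with `n' ∈ P` and `⌊π 10 ^ n⌋ = 10 ^ (2 j) ⌊π 10 ^ n'⌋`. -/
theorem result : ∀ N : ℕ, 20 ≤ N → ∃ P : Finset ℕ,
    (P.card : ℝ) ≤ 2 * Real.logb 2 (((N : ℝ) + 2) / 11) ∧
    ∀ n ≤ N, IsSquare ⌊Real.pi * 10 ^ n⌋₊ → ∃ n' ∈ P, ∃ j : ℕ, n = n' + 2 * j ∧
      ⌊Real.pi * 10 ^ n⌋₊ = 10 ^ (2 * j) * ⌊Real.pi * 10 ^ n'⌋₊ := by
  classical
  intro N hN
  set Q : Finset ℕ := (Finset.range (N + 1)).filter
    (fun n => ∃ m : ℕ, a n = m ^ 2 ∧ ¬ 10 ∣ m) with hQ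
  have hmem : ∀ x ∈ Q, x ≤ N ∧ ∃ m : ℕ, a x = m ^ 2 ∧ ¬ 10 ∣ m := by
    intro x hx
    rw [hQ, Finset.mem_filter, Finset.mem_range] at hx
    exact ⟨by omega, hx.2⟩
  have h20 : ∀ x ∈ Q, 20 ≤ x := by
    intro x hx
    obtain ⟨-, m, hm, -⟩ := hmem x hx
    by_contra h
    exact not_square_small (not_le.1 h) _ hm
  have hpar : ∀ r : ℕ, ((Q.filter (fun n => n % 2 = r)).card : ℝ) ≤
      Real.logb 2 (((N : ℝ) + 2) / 11) := by
    intro r
    refine count_log (fun x hx => h20 x (Finset.mem_of_mem_filter x hx)) ?_ hN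
      (fun x hx => (hmem x (Finset.mem_of_mem_filter x hx)).1)
    intro x hx y hy hxy
    rw [Finset.mem_filter] at hx hy
    obtain ⟨-, m₁, h₁, -⟩ := hmem x hx.1
    obtain ⟨-, m₂, h₂, h₂'⟩ := hmem y hy.1
    obtain ⟨s, rfl⟩ : ∃ s, y = x + 2 * s := ⟨(y - x) / 2, by omega⟩
    have := gap (by omega) h₁ h₂ h₂'
    omega
  refine ⟨Q, ?_, ?_⟩
  · have h1 : Q.card = (Q.filter (fun n => n % 2 = 0)).card +
        (Q.filter (fun n => n % 2 = 1)).card := by
      rw [← Finset.card_filter_add_card_filter_not (s := Q) (fun n => n % 2 = 0)]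
      congr 2
      ext x
      simp only [Finset.mem_filter]
      constructor
      · rintro ⟨h, h'⟩; exact ⟨h, by omega⟩
      · rintro ⟨h, h'⟩; exact ⟨h, by omega⟩
    rw [h1]
    push_cast
    linarith [hpar 0, hpar 1]
  · intro n hn hsq
    obtain ⟨r, hr⟩ := hsq
    obtain ⟨n', j, m', e1, e2, e3, e4⟩ := reduce n r (by rw [a, hr]; ring)
    refine ⟨n', ?_, j, e1, e4⟩
    rw [hQ, Finset.mem_filter, Finset.mem_range]
    exact ⟨by omega, m', e2, e3⟩

end Pool.Agent.Results.MP_050e89_nt.SparseSquares
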